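import Pool.Agent.Results.MP_8865d3_nt.KummerCovers
import Pool.Agent.Y854.GM.Win

/-!
# Vojta's conjecture with multiplier ideals on the Kummer covers of all hyperplane arrangements, in windows of heights

Let `a_0, …, a_{r-1}` be nonzero linear forms in `n + 1` variables over a number field `K` which span the space of linear
forms: an arbitrary essential arrangement of hyperplanes, with the divisor `D_M` of all flats on the blow-up `M → ℙ^n` and
the Kummer covers `X_m → M` (starting file `KummerCovers`). Let `0 ≤ κ ≤ 1/2`, `v ≥ 1` a sequence with exponent of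
convergence at most `τ` (for `v_k = (k + 1) ^ b` this is `1 / b`, for `v_k = b ^ k` it is `0`) and `θ < 1`. For all `α > 0`
outside a set of Hausdorff dimension at most `(1 - κ / (n + 1) + τ) / (1 - θ)` and every `c`, for all but finitely many `k`,
for ALL points `x ∈ ℙ^n(K)` off the arrangement with `|H_K(x) ^ (n + 1) - α v_k| ≤ v_k ^ θ`, ALL `m ≥ 1`, ALL points `P`
above `x` of the Kummer cover `X_m`, over any number field `L`, ALL ideals `I` which are monomial in the components of `D`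
and ALL finite sets `S` of primes
`h_K(P) + ∑_{v ∈ S ∪ {∞}} (λ_I - λ_{I⁻})(P, v) + (n + 1 - κ) h(x) ≤ d(L) + ∑_{p ∈ S} log p - c`.
The exceptional set is a null set if `θ < κ / (n + 1) - τ`. The corresponding statement for the Fermat intersections of
hyperplanes in general position is the starting result `MonomialWindows`.
-/

set_option autoImplicit false

open NumberField IsDedekindDomain LinearAlgebra.Projectivization MeasureTheory

namespace Pool.Agent.Results.MP_8865d3_nt.KummerWindows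

open KummerCovers (lin height canonicalHeight proximity logDisc exceptional Flat)

/-- the exponent of convergence of the sequence `v` is at most `τ` -/
def ExpLe (v : ℕ → ℝ) (τ : ℝ) : Prop := ∀ t : ℝ, τ < t → Summable (fun n : ℕ => (v n) ^ (-t))

lemma count (K : Type) [Field K] [NumberField K] {n r : ℕ} (hn : 1 ≤ n)
    (a : Fin r → Fin (n + 1) → K) (ha : ∀ i, a i ≠ 0) (hspan : Submodule.span K (Set.range a) = ⊤)
    (κ c ε : ℝ) (hκ0 : 0 ≤ κ) (hκ : κ ≤ 1 / 2) (hε : 0 < ε) :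
    ∃ C : ℝ, ∀ X : ℝ, 1 ≤ X →
      {x | x ∈ (⋃ B : ℝ, exceptional a κ c B) ∧ x.mulHeight ^ (n + 1) ≤ X}.Finite ∧
      ({x | x ∈ (⋃ B : ℝ, exceptional a κ c B) ∧ x.mulHeight ^ (n + 1) ≤ X}.ncard : ℝ) ≤
        C * X ^ ((1 - κ / (n + 1)) + ε) := by
  have hd : (0 : ℝ) < (Module.finrank ℚ K : ℝ) := by exact_mod_cast Module.finrank_pos
  obtain ⟨M, hM⟩ := KummerCovers.result K n r hn a ha hspan κ c
    ((n + 1) * (Module.finrank ℚ K : ℝ) * ε) hκ0 hκ (by positivity)
  set d : ℝ := (Module.finrank ℚ K : ℝ) with hd'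
  have hn0 : (0 : ℝ) < (n : ℝ) + 1 := by positivity
  refine ⟨M, fun X hX => ?_⟩
  have hX0 : 0 < X := by linarith
  have hB : 1 ≤ X ^ (1 / ((n + 1) * d)) := Real.one_le_rpow hX (by positivity)
  obtain ⟨hfin, hcard⟩ := hM (X ^ (1 / ((n + 1) * d))) hB
  have hsub : {x | x ∈ (⋃ B : ℝ, exceptional a κ c B) ∧ x.mulHeight ^ (n + 1) ≤ X} ⊆
      exceptional a κ c (X ^ (1 / ((n + 1) * d))) := by
    rintro x ⟨hx, hxX⟩
    obtain ⟨B, hx2⟩ := Set.mem_iUnion.1 hx
    refine ⟨hx2.1, ?_, hx2.2.2⟩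
    have h1 : 0 < x.mulHeight := x.mulHeight_pos
    have h2 : Real.log (x.mulHeight ^ (n + 1)) ≤ Real.log X := Real.log_le_log (by positivity) hxX
    rw [Real.log_pow] at h2
    rw [← Real.le_log_iff_exp_le (Real.rpow_pos_of_pos hX0 _), Real.log_rpow hX0]
    unfold height
    rw [← hd', div_le_iff₀ hd]
    push_cast at h2
    have h3 : Real.log x.mulHeight ≤ Real.log X / (n + 1) := by
      rw [le_div_iff₀ hn0]
      linarith
    refine h3.trans (le_of_eq ?_)
    field_simp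
  refine ⟨hfin.subset hsub, ?_⟩
  have h4 : ({x | x ∈ (⋃ B : ℝ, exceptional a κ c B) ∧ x.mulHeight ^ (n + 1) ≤ X}.ncard : ℝ) ≤
      ((exceptional a κ c (X ^ (1 / ((n + 1) * d)))).ncard : ℝ) := by
    exact_mod_cast Set.ncard_le_ncard hsub hfin
  refine (h4.trans hcard).trans (le_of_eq ?_)
  rw [← Real.rpow_mul hX0.le]
  congr 2
  field_simp

/-- **Theorem.** Let `K` be a number field, `n ≥ 1`, `a_0, …, a_{r-1}` nonzero linear forms in `n + 1` variables over `K`
which span the space of linear forms, and `0 ≤ κ ≤ 1/2`. Let `v ≥ 1` be a sequence of exponent of convergence at most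
`τ ≥ 0` and `θ < 1`. There is a set `E` of Hausdorff dimension at most `(1 - κ / (n + 1) + τ) / (1 - θ)`, of Lebesgue measure
zero if `θ < κ / (n + 1) - τ`, such that for each `α > 0` outside `E` and each `c`, for all but finitely many `k`: for ALL
`x ∈ ℙ^n(K)` off the arrangement with `|H_K(x) ^ (n + 1) - α v_k| ≤ v_k ^ θ`, ALL `m ≥ 1`, ALL points `P` of the Kummer
cover `X_m` above `x`, over any number field `L`, ALL ideals `I` monomial in the components of `D` and ALL finite sets `S`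
of primes `h_K(P) + ∑_{v ∈ S ∪ {∞}} (λ_I - λ_{I⁻})(P, v) + (n + 1 - κ) h(x) ≤ d(L) + ∑_{p ∈ S} log p - c`. The sequences
`v_k = (k + 1) ^ b` and `v_k = b ^ k` have exponent of convergence at most `1 / b` and `0`. -/
theorem result :
    (∀ (K : Type) [Field K] [NumberField K] (n r : ℕ), 1 ≤ n → ∀ a : Fin r → Fin (n + 1) → K, (∀ i, a i ≠ 0) →
      Submodule.span K (Set.range a) = ⊤ → ∀ κ : ℝ, 0 ≤ κ → κ ≤ 1 / 2 →
      ∀ (v : ℕ → ℝ) (τ θ : ℝ), (∀ k, 1 ≤ v k) → 0 ≤ τ → ExpLe v τ → θ < 1 →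
      ∃ E : Set ℝ, dimH E ≤ ENNReal.ofReal ((1 - κ / (n + 1) + τ) / (1 - θ)) ∧
        (θ < κ / (n + 1) - τ → volume E = 0) ∧
        ∀ α : ℝ, 0 < α → α ∉ E → ∀ c : ℝ, ∃ k₀ : ℕ, ∀ k : ℕ, k₀ ≤ k → ∀ x : ℙ K (Fin (n + 1) → K),
          (∀ i, lin (a i) x.rep ≠ 0) → |x.mulHeight ^ (n + 1) - α * v k| ≤ (v k) ^ θ →
            ∀ (m : ℕ) (L : Type) [Field L] [NumberField L] [Algebra K L] (y : Fin r → L) (t : L)
              (I : Finset (Flat a → ℕ)) (S : Finset ℕ), 1 ≤ m → t ≠ 0 →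
              (∀ i, y i ^ m = t * algebraMap K L (lin (a i) x.rep)) → I.Nonempty → (∀ p ∈ S, p.Prime) →
                canonicalHeight a x y + proximity S y I + (n + 1 - κ) * height x ≤
                  logDisc L + ∑ p ∈ S, Real.log p - c) ∧
    (∀ b : ℝ, 0 < b → ExpLe (fun k : ℕ => ((k : ℝ) + 1) ^ b) (1 / b)) ∧
    (∀ b : ℝ, 1 < b → ExpLe (fun k : ℕ => b ^ k) 0) := by
  refine ⟨fun K _ _ n r hn a ha hspan κ hκ0 hκ v τ θ hv hτ hE hθ1 => ?_,
    fun κ hκ => Pool.Agent.Y854.GM.expLe_pow κ hκ, fun b hb => Pool.Agent.Y854.GM.expLe_geom b hb⟩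
  have hn1 : (1 : ℝ) ≤ n := by exact_mod_cast hn
  have hs : 0 ≤ 1 - κ / (n + 1) := by
    have : κ / (n + 1) ≤ 1 := by
      rw [div_le_one (by positivity)]
      linarith
    linarith
  have hall : ∀ m : ℕ, ∃ E : Set ℝ, dimH E ≤ ENNReal.ofReal ((1 - κ / (n + 1) + τ) / (1 - θ)) ∧
      ∀ α : ℝ, 0 < α → α ∉ E → ∃ n0 : ℕ, ∀ n' : ℕ, n0 ≤ n' →
        ∀ x ∈ (⋃ B : ℝ, exceptional a κ (-(m : ℝ)) B), (v n') ^ θ < |x.mulHeight ^ (n + 1) - α * v n'| := fun m =>
    Pool.Agent.Y854.GM.windows (⋃ B : ℝ, exceptional a κ (-(m : ℝ)) B) (fun x => x.mulHeight ^ (n + 1)) hv hτ hE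
      hs hθ1 (fun ε hε => count K hn a ha hspan κ (-(m : ℝ)) ε hκ0 hκ hε)
  choose E hE1 hE2 using hall
  have hdim : dimH (⋃ m, E m) ≤ ENNReal.ofReal ((1 - κ / (n + 1) + τ) / (1 - θ)) := by
    rw [dimH_iUnion]
    exact iSup_le hE1
  refine ⟨⋃ m, E m, hdim, fun hθ => ?_, fun α hα hαE c => ?_⟩
  · refine measure_zero_of_dimH_lt (d := (1 : NNReal)) ?_ (lt_of_le_of_lt hdim ?_)
    · rw [NNReal.coe_one, hausdorffMeasure_real]
    · rw [ENNReal.coe_one, ENNReal.ofReal_lt_one, div_lt_one (by linarith)]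
      linarith
  · obtain ⟨j, hj⟩ := exists_nat_ge c
    obtain ⟨k₀, hk⟩ := hE2 j α hα (fun h => hαE (Set.mem_iUnion.2 ⟨j, h⟩))
    refine ⟨k₀, fun k hk1 x hx hw m L _ _ _ y t I S hm ht hy hI hS => ?_⟩
    by_contra hcon
    push Not at hcon
    refine absurd (hk k hk1 x (Set.mem_iUnion.2 ⟨Real.exp (height x), hx, le_refl _, m, L, inferInstance,
      inferInstance, inferInstance, y, t, I, S, hm, ht, hy, hI, hS, ?_⟩)) (not_lt.2 hw)
    linarith

end Pool.Agent.Results.MP_8865d3_nt.KummerWindows
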