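import Pool.Agent.Results.MP_8865d3_nt.MonomialWindows
import Pool.Agent.H2N.NearSpace

/-!
# Vojta's conjecture with multiplier ideals on Fermat intersections above all points near almost every point

Let `a_0, …, a_{q-1}` be linear forms in `n + 1` variables over a number field `K`, any `n + 1` of them linearly
independent, `κ ≥ 0`, and let `φ` be a map of `ℙ^n(K)` to a metric space. For all points `z` outside a set of Hausdorff
dimension at most `exponent(n, q, κ) / σ` and every `c`, for all but finitely many points `x ∈ ℙ^n(K)` off the hyperplanes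
with `dist (φ x) z ≤ H_K(x) ^ (-σ)`, ALL `m ≥ 1`, ALL points `P` above `x` of the Fermat intersection `X_m`, ALL monomial
ideals `I` and ALL finite sets `S` of primes
`(κ m - q) h(P) + ∑_{v ∈ S ∪ {∞}} (λ_I - λ_{I⁻})(P, v) ≤ d(L) + ∑_{p ∈ S} log p - c`.
For almost every `z ∈ ℝ^n` this holds for the approximations `x` of `z` with coordinates in `K`, simultaneously for all
number fields `K ⊂ ℝ`, all `q`, all arrangements over `K`, all `κ ≥ 0` and all `σ > exponent(n, q, κ) / n`. For `κ < q` this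
includes exponents `σ < 1 + 1 / n`, for which by Dirichlet's theorem every `z` has infinitely many rational approximations
with `|x - z| ≤ H(x) ^ (-σ)`.
-/

set_option autoImplicit false

open scoped ENNReal NNReal

namespace Pool.Agent.Results.MP_8865d3_nt.NearAlmostEveryPoint

open NumberField IsDedekindDomain LinearAlgebra.Projectivization MeasureTheory Filter
open MonomialIdeals (lin baseHeight height proximity logDisc exponent exceptional)
open MonomialWindows (expo_nonneg expo_lt count)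

/-- the inequality above `x`, for all `m`, all number fields `L ⊇ K`, all points, all ideals and all sets of primes -/
def Ineq {K : Type} [Field K] [NumberField K] {n r : ℕ} (a : Fin r → Fin (n + 1) → K) (κ c : ℝ)
    (x : ℙ K (Fin (n + 1) → K)) : Prop :=
  ∀ (m : ℕ) (L : Type) [Field L] [NumberField L] [Algebra K L] (y : Fin r → L) (t : L)
    (I : Finset (Fin r → ℕ)) (S : Finset ℕ), 1 ≤ m → t ≠ 0 →
    (∀ i, y i ^ m = t * algebraMap K L (lin (a i) x.rep)) → I.Nonempty → (∀ p ∈ S, p.Prime) →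
      (κ * m - r) * height y + proximity S y I ≤ logDisc L + ∑ p ∈ S, Real.log p - c

/-- any `n + 1` of the forms are linearly independent -/
def General {K : Type} [Field K] {n r : ℕ} (a : Fin r → Fin (n + 1) → K) : Prop :=
  ∀ I : Finset (Fin r), I.card = n + 1 → LinearIndependent K (fun i : I => a i)

/-- the points off the hyperplanes near `z` which violate the inequality -/
def BadNear {K : Type} [Field K] [NumberField K] {n r : ℕ} (a : Fin r → Fin (n + 1) → K)
    (κ c : ℝ) {M : Type} [MetricSpace M] (φ : ℙ K (Fin (n + 1) → K) → M)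
    (σ : ℝ) (z : M) : Set (ℙ K (Fin (n + 1) → K)) :=
  {x | (∀ i, lin (a i) x.rep ≠ 0) ∧ dist (φ x) z ≤ x.mulHeight ^ (-σ) ∧ ¬ Ineq a κ c x}

/-- the affine coordinates `x_i / x_0` of a point with coordinates in a subfield `K` of `E` -/
noncomputable def affine {E : Type} [Field E] [CharZero E] {K : IntermediateField ℚ E} {n : ℕ}
    (x : ℙ K (Fin (n + 1) → K)) : Fin n → E := fun i => ((x.rep i.succ / x.rep 0 : K) : E)

theorem one_le_H {K : Type} [Field K] [NumberField K] {n : ℕ} (x : ℙ K (Fin (n + 1) → K)) : 1 ≤ x.mulHeight := by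
  induction x using Projectivization.ind with
  | h v hv =>
    rw [Projectivization.mulHeight_mk]
    exact Height.one_le_mulHeight v

theorem point_nonneg {L : Type} [Field L] [NumberField L] {r : ℕ} (y : Fin r → L) : 0 ≤ height y :=
  div_nonneg (Real.log_nonneg (Height.one_le_mulHeight y)) (Nat.cast_nonneg _)

theorem ineq_mono {K : Type} [Field K] [NumberField K] {n r : ℕ} {a : Fin r → Fin (n + 1) → K}
    {κ κ' c c' : ℝ} (h : κ ≤ κ') (hc : c ≤ c') {x : ℙ K (Fin (n + 1) → K)}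
    (hx : Ineq a κ' c' x) : Ineq a κ c x := by
  intro m L _ _ _ y t I S hm ht hy hI hS
  have h1 := hx m L y t I S hm ht hy hI hS
  have h2 : κ * m * height y ≤ κ' * m * height y :=
    mul_le_mul_of_nonneg_right (mul_le_mul_of_nonneg_right h (Nat.cast_nonneg _)) (point_nonneg y)
  nlinarith

theorem not_ineq {K : Type} [Field K] [NumberField K] {n r : ℕ} {a : Fin r → Fin (n + 1) → K}
    {κ c : ℝ} {x : ℙ K (Fin (n + 1) → K)}
    (hx0 : ∀ i, lin (a i) x.rep ≠ 0) (hx : ¬ Ineq a κ c x) : x ∈ ⋃ B : ℝ, exceptional a κ (-c) B := by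
  unfold Ineq at hx
  push Not at hx
  obtain ⟨m, L, i1, i2, i3, y, t, I, S, hm, ht, hy, hI, hS, h⟩ := hx
  refine Set.mem_iUnion.2 ⟨Real.exp (baseHeight x), hx0, le_refl _, m, L, i1, i2, i3, y, t, I, S, hm, ht, hy, hI,
    hS, ?_⟩
  linarith

theorem nat_bad {K : Type} [Field K] [NumberField K] {n r : ℕ} {a : Fin r → Fin (n + 1) → K}
    {κ : ℝ} {M : Type} [MetricSpace M] {φ : ℙ K (Fin (n + 1) → K) → M}
    {σ : ℝ} {z : M}
    (h : ∀ m : ℕ, {x | x ∈ (⋃ B : ℝ, exceptional a κ (-(m : ℝ)) B) ∧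
      dist (φ x) z ≤ (x.mulHeight ^ (n + 1)) ^ (-(σ / (n + 1)))}.Finite) (c : ℝ) :
    (BadNear a κ c φ σ z).Finite := by
  obtain ⟨m, hm⟩ := exists_nat_ge c
  refine (h m).subset ?_
  rintro x ⟨h1, h2, h3⟩
  refine ⟨not_ineq h1 fun h4 => h3 (ineq_mono le_rfl hm h4), h2.trans (le_of_eq ?_)⟩
  rw [← Real.rpow_natCast, ← Real.rpow_mul (zero_le_one.trans (one_le_H x))]
  congr 1
  push_cast
  field_simp

/-- part (1) -/
theorem part_one (K : Type) [Field K] [NumberField K] {n r : ℕ} (hn : 1 ≤ n) (hr : n + 1 ≤ r)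
    (a : Fin r → Fin (n + 1) → K) (ha : General a)
    {κ : ℝ} (hκ : 0 ≤ κ) (M : Type) [MetricSpace M]
    (φ : ℙ K (Fin (n + 1) → K) → M) {σ : ℝ} (hσ : 0 < σ) :
    ∃ E : Set M, dimH E ≤ ENNReal.ofReal (exponent n r κ / σ) ∧ ∀ z ∉ E, ∀ c : ℝ, (BadNear a κ c φ σ z).Finite := by
  have hs : 0 ≤ exponent n r κ / (n + 1) := div_nonneg (expo_nonneg hn hr hκ) (by positivity)
  obtain ⟨E, h1, h2⟩ := Pool.Agent.H107.ME.dim_family φ (fun x : ℙ K (Fin (n + 1) → K) => x.mulHeight ^ (n + 1))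
    (fun x => one_le_pow₀ (one_le_H x)) hs (σ := σ / (n + 1)) (by positivity)
    (fun m : ℕ => ⋃ B : ℝ, exceptional a κ (-(m : ℝ)) B) (fun m ε hε => count K hn hr a ha κ (-(m : ℝ)) ε hκ hε)
  refine ⟨E, h1.trans (le_of_eq ?_), fun z hz c => nat_bad (fun m => h2 z hz m) c⟩
  congr 1
  field_simp

/-- the exponent is continuous -/
theorem expo_add {n r : ℕ} (hn : 1 ≤ n) (hr : n + 1 ≤ r) (κ : ℝ) {u : ℝ} (hu : 0 ≤ u) :
    exponent n r (κ + u) ≤ exponent n r κ + u := by
  have hn0 : (1 : ℝ) ≤ n := by exact_mod_cast hn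
  have hr0 : (n : ℝ) + 1 ≤ r := by exact_mod_cast hr
  unfold exponent
  have h1 : (0 : ℝ) ≤ ((r - n).choose (n + 1) : ℝ) / (r.choose (n + 1) : ℝ) := by positivity
  have h2 : ((n : ℝ) + 1) * ((n : ℝ) * u) / ((r : ℝ) * ((r : ℝ) - 1)) ≤ u := by
    rw [div_le_iff₀ (mul_pos (by linarith) (by linarith))]
    have h3 : ((n : ℝ) + 1) * n ≤ (r : ℝ) * ((r : ℝ) - 1) := mul_le_mul hr0 (by linarith) (by linarith) (by linarith)
    nlinarith
  rw [min_add]
  apply min_le_min
  · nlinarith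
  · have e1 : ((n : ℝ) + 1) * (1 - (n : ℝ) * ((r : ℝ) - (κ + u)) / ((r : ℝ) * ((r : ℝ) - 1))) =
        ((n : ℝ) + 1) * (1 - (n : ℝ) * ((r : ℝ) - κ) / ((r : ℝ) * ((r : ℝ) - 1))) +
          ((n : ℝ) + 1) * ((n : ℝ) * u) / ((r : ℝ) * ((r : ℝ) - 1)) := by
      have hne : (r : ℝ) * ((r : ℝ) - 1) ≠ 0 := (mul_pos (by linarith) (by linarith)).ne'
      field_simp
      ring
    rw [e1]
    linarith

/-- there are countably many number fields in a field of characteristic zero -/
theorem countable_fields (F : Type) [Field F] [CharZero F] :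
    {K : IntermediateField ℚ F | FiniteDimensional ℚ K}.Countable := by
  classical
  have hA : {x : F | IsAlgebraic ℚ x}.Countable := Algebraic.countable ℚ F
  have hF : {s : Set F | s.Finite ∧ s ⊆ {x : F | IsAlgebraic ℚ x}}.Countable := Set.countable_ofPred_finite_subset hA
  refine (hF.image fun s => IntermediateField.adjoin ℚ s).mono ?_
  intro K hK
  have hK' : FiniteDimensional ℚ K := hK
  obtain ⟨s, hs⟩ : ∃ s : Finset F, IntermediateField.adjoin ℚ (s : Set F) = K := by
    obtain ⟨s, hs⟩ := IntermediateField.essFiniteType_iff.1 (inferInstance : Algebra.EssFiniteType ℚ K)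
    exact ⟨s, hs⟩
  refine ⟨s, ⟨s.finite_toSet, fun x hx => ?_⟩, hs⟩
  have hxK : x ∈ K := by
    rw [← hs]
    exact IntermediateField.subset_adjoin _ _ hx
  have h1 : IsAlgebraic ℚ (⟨x, hxK⟩ : K) := Algebra.IsAlgebraic.isAlgebraic _
  exact h1.algebraMap (A := F)

/-- almost every point of a space with Haar measure, one number field and one map, all arrangements -/
theorem one_field (K : Type) [Field K] [NumberField K] {n : ℕ} (hn : 1 ≤ n) {V : Type} [NormedAddCommGroup V]
    [NormedSpace ℝ V] [FiniteDimensional ℝ V] [MeasurableSpace V] [BorelSpace V] (μ : Measure V)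
    [μ.IsAddHaarMeasure] (hV : 0 < Module.finrank ℝ V) (φ : ℙ K (Fin (n + 1) → K) → V) :
    ∀ᵐ z ∂μ, ∀ r : ℕ, n + 1 ≤ r → ∀ a : Fin r → Fin (n + 1) → K, General a →
      ∀ κ : ℝ, 0 ≤ κ → ∀ σ : ℝ, exponent n r κ / Module.finrank ℝ V < σ →
        ∀ c : ℝ, (BadNear a κ c φ σ z).Finite := by
  have hd : (0 : ℝ) < Module.finrank ℝ V := by exact_mod_cast hV
  have hn1 : (0 : ℝ) < (n : ℝ) + 1 := by positivity
  have hcK : Countable K := (Module.finBasis ℚ K).equivFun.injective.countable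
  -- rational values of `κ`
  have h1 : ∀ᵐ z ∂μ, ∀ r : ℕ, ∀ q : ℚ, n + 1 ≤ r → 0 ≤ (q : ℝ) → ∀ a : Fin r → Fin (n + 1) → K, General a →
      ∀ σ : ℝ, exponent n r q / Module.finrank ℝ V < σ →
        ∀ c : ℝ, (BadNear a q c φ σ z).Finite := by
    rw [ae_all_iff]
    intro r
    rw [ae_all_iff]
    intro q
    by_cases hr : n + 1 ≤ r
    · by_cases hq : 0 ≤ (q : ℝ)
      · have hs : 0 ≤ exponent n r q / (n + 1) := div_nonneg (expo_nonneg hn hr hq) (by positivity)
        have h2 := Pool.Agent.H2N.ae_family_space μ hV φ (fun x : ℙ K (Fin (n + 1) → K) => x.mulHeight ^ (n + 1))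
          (fun x => one_le_pow₀ (one_le_H x)) hs
          (J := {a : Fin r → Fin (n + 1) → K // General a} × ℕ)
          (fun j => ⋃ B : ℝ, exceptional j.1.1 q (-(j.2 : ℝ)) B)
          (fun j ε hε => count K hn hr j.1.1 j.1.2 q (-(j.2 : ℝ)) ε hq hε)
        filter_upwards [h2] with z hz _ _ a ha σ hσ c
        refine nat_bad (fun m => hz (σ / (n + 1)) ?_ ⟨⟨a, ha⟩, m⟩) c
        rw [div_right_comm]
        exact div_lt_div_of_pos_right hσ hn1
      · exact Eventually.of_forall fun z _ h => absurd h hq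
    · exact Eventually.of_forall fun z h => absurd h hr
  filter_upwards [h1] with z hz r hr a ha κ hκ σ hσ c
  set g : ℝ := σ - exponent n r κ / Module.finrank ℝ V with hg
  have hg0 : 0 < g := by linarith
  obtain ⟨q, hq1, hq2⟩ := exists_rat_btwn (show κ < κ + g / 2 * Module.finrank ℝ V by
    have : 0 < g / 2 * Module.finrank ℝ V := by positivity
    linarith)
  have h2 : exponent n r q ≤ exponent n r κ + (q - κ) := by
    have h3 := expo_add hn hr κ (u := q - κ) (by linarith)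
    have e1 : κ + (q - κ) = (q : ℝ) := by ring
    rwa [e1] at h3
  have h3 : exponent n r q / Module.finrank ℝ V < σ := by
    rw [div_lt_iff₀ hd]
    have e2 : σ * Module.finrank ℝ V = exponent n r κ + g * Module.finrank ℝ V := by
      rw [hg]
      field_simp
      ring
    have h4 : g / 2 * Module.finrank ℝ V < g * Module.finrank ℝ V := by
      apply mul_lt_mul_of_pos_right _ hd
      linarith
    linarith
  refine (hz r q hr (by linarith) a ha σ h3 c).subset ?_
  rintro x ⟨g1, g2, g3⟩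
  exact ⟨g1, g2, fun h => g3 (ineq_mono hq1.le le_rfl h)⟩

/-- all number fields in `E = ℝ` or `E = ℂ` at once -/
theorem all_fields (E : Type) [NormedField E] [CharZero E] {n : ℕ} (hn : 1 ≤ n)
    [NormedSpace ℝ (Fin n → E)] [FiniteDimensional ℝ (Fin n → E)]
    [MeasurableSpace (Fin n → E)] [BorelSpace (Fin n → E)] (μ : Measure (Fin n → E)) [μ.IsAddHaarMeasure]
    (hV : 0 < Module.finrank ℝ (Fin n → E)) :
    ∀ᵐ z ∂μ, ∀ (K : IntermediateField ℚ E) [NumberField K] (r : ℕ), n + 1 ≤ r →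
      ∀ a : Fin r → Fin (n + 1) → K, General a →
      ∀ κ : ℝ, 0 ≤ κ →
        ∀ σ : ℝ, exponent n r κ / Module.finrank ℝ (Fin n → E) < σ →
        ∀ c : ℝ, (BadNear a κ c affine σ z).Finite := by
  have h5 : ∀ᵐ z ∂μ, ∀ K ∈ {K : IntermediateField ℚ E | FiniteDimensional ℚ K}, ∀ [NumberField K] (r : ℕ),
      n + 1 ≤ r → ∀ a : Fin r → Fin (n + 1) → K, General a →
      ∀ κ : ℝ, 0 ≤ κ →
        ∀ σ : ℝ, exponent n r κ / Module.finrank ℝ (Fin n → E) < σ →
        ∀ c : ℝ, (BadNear a κ c affine σ z).Finite := by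
    rw [ae_ball_iff (countable_fields E)]
    intro K hK
    have hK' : FiniteDimensional ℚ K := hK
    have hNF : NumberField K := ⟨⟩
    filter_upwards [one_field K hn μ hV affine] with z hz
    intro _
    exact hz
  filter_upwards [h5] with z hz K hK
  exact hz K (inferInstance : FiniteDimensional ℚ K)

/-- **Theorem.** `Ineq a κ c x`: for ALL `m ≥ 1`, ALL number fields `L` which contain `K`, ALL points `P` over `L` of the
Fermat intersection `X_m` of `a` above `x`, ALL monomial ideals `I` and ALL finite sets `S` of primes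
`(κ m - r) h(P) + ∑_{v ∈ S ∪ {∞}} (λ_I - λ_{I⁻})(P, v) ≤ d(L) + ∑_{p ∈ S} log p - c`. Let `n ≥ 1`.
(0) `exponent(n, r, κ) < n + 1` for `κ < r`.
(1) Let `K` be a number field, `r ≥ n + 1`, `a_0, …, a_{r-1}` linear forms in `n + 1` variables over `K`, any `n + 1` of them
linearly independent, `κ ≥ 0`, `φ` a map of `ℙ^n(K)` to a metric space `M` and `σ > 0`. There is a set `E ⊆ M` of Hausdorff
dimension at most `exponent(n, r, κ) / σ` such that for all `z` outside `E` and all `c` the inequality `Ineq a κ c x` holds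
for all but finitely many `x ∈ ℙ^n(K)` off the hyperplanes with `dist (φ x) z ≤ H_K(x) ^ (-σ)`.
(2) For almost every `z ∈ ℝ^n` and ALL number fields `K ⊂ ℝ`, `r ≥ n + 1`, `a` and `κ ≥ 0` as in (1),
`σ > exponent(n, r, κ) / n` and `c` the inequality holds for all but finitely many `x ∈ ℙ^n(K)` off the hyperplanes with
`|x_i / x_0 - z_i| ≤ H_K(x) ^ (-σ)` for all `i`.
(3) For almost every `z ∈ ℂ^n` this holds for ALL number fields `K ⊂ ℂ` and `σ > exponent(n, r, κ) / (2 n)`. -/
theorem result : ∀ n : ℕ, 1 ≤ n →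
    (∀ (r : ℕ) (κ : ℝ), n + 1 ≤ r → κ < r → exponent n r κ < n + 1) ∧
    (∀ (K : Type) [Field K] [NumberField K] (r : ℕ), n + 1 ≤ r → ∀ a : Fin r → Fin (n + 1) → K, General a →
      ∀ κ : ℝ, 0 ≤ κ → ∀ (M : Type) [MetricSpace M]
      (φ : ℙ K (Fin (n + 1) → K) → M) (σ : ℝ), 0 < σ →
      ∃ E : Set M, dimH E ≤ ENNReal.ofReal (exponent n r κ / σ) ∧ ∀ z : M, z ∉ E → ∀ c : ℝ,
        {x : ℙ K (Fin (n + 1) → K) | (∀ i, lin (a i) x.rep ≠ 0) ∧ dist (φ x) z ≤ x.mulHeight ^ (-σ) ∧
          ¬ Ineq a κ c x}.Finite) ∧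
    (∀ᵐ z : Fin n → ℝ, ∀ (K : IntermediateField ℚ ℝ) [NumberField K] (r : ℕ), n + 1 ≤ r →
      ∀ a : Fin r → Fin (n + 1) → K, General a →
      ∀ κ : ℝ, 0 ≤ κ → ∀ σ : ℝ, exponent n r κ / n < σ → ∀ c : ℝ,
        {x : ℙ K (Fin (n + 1) → K) | (∀ i, lin (a i) x.rep ≠ 0) ∧
          (∀ i, |affine x i - z i| ≤ x.mulHeight ^ (-σ)) ∧ ¬ Ineq a κ c x}.Finite) ∧
    (∀ᵐ z : Fin n → ℂ, ∀ (K : IntermediateField ℚ ℂ) [NumberField K] (r : ℕ), n + 1 ≤ r →
      ∀ a : Fin r → Fin (n + 1) → K, General a →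
      ∀ κ : ℝ, 0 ≤ κ → ∀ σ : ℝ, exponent n r κ / (2 * n) < σ → ∀ c : ℝ,
        {x : ℙ K (Fin (n + 1) → K) | (∀ i, lin (a i) x.rep ≠ 0) ∧
          (∀ i, ‖affine x i - z i‖ ≤ x.mulHeight ^ (-σ)) ∧ ¬ Ineq a κ c x}.Finite) := by
  intro n hn
  refine ⟨fun r κ hr h => expo_lt hn hr h, fun K _ _ r hr a ha κ hκ M _ φ σ hσ =>
    part_one K hn hr a ha hκ M φ hσ, ?_, ?_⟩
  · have hV : Module.finrank ℝ (Fin n → ℝ) = n := by rw [Module.finrank_fin_fun]
    filter_upwards [all_fields ℝ hn (volume : Measure (Fin n → ℝ)) (by rw [hV]; exact hn)] with z hz K hK r hr a ha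
      κ hκ σ hσ c
    refine (hz K r hr a ha κ hκ σ (by rw [hV]; exact hσ) c).subset ?_
    rintro x ⟨h1, h2, h3⟩
    refine ⟨h1, ?_, h3⟩
    rw [dist_pi_le_iff (Real.rpow_nonneg (zero_le_one.trans (one_le_H x)) _)]
    intro i
    rw [Real.dist_eq]
    exact h2 i
  · have hV : (Module.finrank ℝ (Fin n → ℂ) : ℝ) = 2 * n := by
      rw [Module.finrank_pi_fintype]
      simp
      ring
    have hV0 : 0 < Module.finrank ℝ (Fin n → ℂ) := by
      have h1 : (0 : ℝ) < (Module.finrank ℝ (Fin n → ℂ) : ℝ) := by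
        rw [hV]
        have : (1 : ℝ) ≤ n := by exact_mod_cast hn
        linarith
      exact_mod_cast h1
    filter_upwards [all_fields ℂ hn (volume : Measure (Fin n → ℂ)) hV0] with z hz K hK r hr a ha
      κ hκ σ hσ c
    refine (hz K r hr a ha κ hκ σ (by rw [hV]; exact hσ) c).subset ?_
    rintro x ⟨h1, h2, h3⟩
    refine ⟨h1, ?_, h3⟩
    rw [dist_pi_le_iff (Real.rpow_nonneg (zero_le_one.trans (one_le_H x)) _)]
    intro i
    rw [dist_eq_norm]
    exact h2 i

end Pool.Agent.Results.MP_8865d3_nt.NearAlmostEveryPoint
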