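import Pool.Agent.Results.MP_8865d3_nt.MonomialWindows
import Pool.Agent.V11001.KM.Near

/-!
# Vojta's conjecture with multiplier ideals on Fermat intersections above all points with heights near the powers of almost
every real number

Let `a_0, …, a_{q-1}` be linear forms in `n + 1` variables over a number field `K`, any `n + 1` of them linearly
independent, `κ ≥ 0`, `e = exponent(n, q, κ) / (n + 1)`, and let `ν k / log k → ∞`, for example `ν k = k`. For almost every
real `z > 1`, all `θ < 1 - e` and all `c`, for ALL points `x ∈ ℙ^n(K)` of sufficiently large height off the hyperplanes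
with `|H_K(x) ^ (n + 1) - z ^ (ν k)| ≤ z ^ (θ ν k)` for some `k`, ALL `m ≥ 1`, ALL points `P` above `x` of the Fermat
intersection `X_m`, ALL monomial ideals `I` and ALL finite sets `S` of primes
`(κ m - q) h(P) + ∑_{v ∈ S ∪ {∞}} (λ_I - λ_{I⁻})(P, v) ≤ d(L) + ∑_{p ∈ S} log p - c`.
-/

set_option autoImplicit false

namespace Pool.Agent.Results.MP_8865d3_nt.PointsNearPowers

open NumberField IsDedekindDomain LinearAlgebra.Projectivization Pool.Agent.V11001.KM
open MonomialIdeals (lin baseHeight height proximity logDisc exponent exceptional)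
open MonomialWindows (expo_nonneg expo_lt count)

/-- the inequality above all points of sufficiently large height off the hyperplanes with `H_K(x) ^ (n + 1)` near the
numbers `β z ^ (ν k)` -/
def Law {K : Type} [Field K] [NumberField K] {n q : ℕ} (a : Fin q → Fin (n + 1) → K) (κ : ℝ) (ν : ℕ → ℝ)
    (θ β z : ℝ) : Prop :=
  ∀ c : ℝ, ∃ H₀ : ℝ, ∀ x : ℙ K (Fin (n + 1) → K), (∀ i, lin (a i) x.rep ≠ 0) → H₀ ≤ x.mulHeight ^ (n + 1) →
    Near ν θ β z (x.mulHeight ^ (n + 1)) →
      ∀ (m : ℕ) (L : Type) [Field L] [NumberField L] [Algebra K L] (y : Fin q → L) (t : L)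
        (I : Finset (Fin q → ℕ)) (S : Finset ℕ), 1 ≤ m → t ≠ 0 →
        (∀ i, y i ^ m = t * algebraMap K L (lin (a i) x.rep)) → I.Nonempty → (∀ p ∈ S, p.Prime) →
          (κ * m - q) * height y + proximity S y I ≤ logDisc L + ∑ p ∈ S, Real.log p - c

lemma law_of {K : Type} [Field K] [NumberField K] {n q : ℕ} {a : Fin q → Fin (n + 1) → K} {κ : ℝ} {ν : ℕ → ℝ}
    {θ β z : ℝ}
    (h : ∀ m : ℕ, ∃ H₀ : ℝ, ∀ x ∈ (⋃ B : ℝ, exceptional a κ (-(m : ℝ)) B),
      Near ν θ β z (x.mulHeight ^ (n + 1)) → x.mulHeight ^ (n + 1) < H₀) : Law a κ ν θ β z := by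
  intro c
  obtain ⟨j, hj⟩ := exists_nat_ge c
  obtain ⟨H₀, hH⟩ := h j
  refine ⟨H₀, fun x hx h1 h2 m L _ _ _ y t I S hm ht hy hI hS => ?_⟩
  by_contra hcon
  push Not at hcon
  refine absurd (hH x (Set.mem_iUnion.2 ⟨Real.exp (baseHeight x), hx, le_refl _, m, L, inferInstance,
    inferInstance, inferInstance, y, t, I, S, hm, ht, hy, hI, hS, ?_⟩) h2) (not_lt.2 h1)
  linarith

/-- **Theorem.** Let `K` be a number field, `n ≥ 1`, `q ≥ n + 1`, `a_0, …, a_{q-1}` linear forms in `n + 1` variables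
over `K`, any `n + 1` of them linearly independent, `κ ≥ 0`, `ν k / log k → ∞` and `U` a countable set of real numbers;
`e = exponent(n, q, κ) / (n + 1)`, which is smaller than `1` for `κ < q`.
(1) For `θ < 1` there is a set `E` of Hausdorff dimension at most `e / (1 - θ)` such that the law holds for each `z > 1`
outside `E` and each positive `β` in `U`.
(2) For almost every real `z > 1` the law holds for all `θ < 1 - e` and all positive `β` in `U`. -/
theorem result : ∀ (K : Type) [Field K] [NumberField K] (n q : ℕ), 1 ≤ n → n + 1 ≤ q →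
    ∀ a : Fin q → Fin (n + 1) → K,
    (∀ I : Finset (Fin q), I.card = n + 1 → LinearIndependent K (fun i : I => a i)) →
    ∀ κ : ℝ, 0 ≤ κ → ∀ ν : ℕ → ℝ, Fast ν → ∀ U : Set ℝ, U.Countable →
    (κ < q → exponent n q κ / (n + 1) < 1) ∧
    (∀ θ : ℝ, θ < 1 → ∃ E : Set ℝ, dimH E ≤ ENNReal.ofReal (exponent n q κ / (n + 1) / (1 - θ)) ∧
      ∀ z : ℝ, 1 < z → z ∉ E → ∀ β ∈ U, 0 < β → Law a κ ν θ β z) ∧
    (∀ᵐ z : ℝ, 1 < z → ∀ θ : ℝ, θ < 1 - exponent n q κ / (n + 1) → ∀ β ∈ U, 0 < β → Law a κ ν θ β z) := by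
  intro K _ _ n q hn hq a ha κ hκ ν hν U hU
  have hs : 0 ≤ exponent n q κ / (n + 1) := div_nonneg (expo_nonneg hn hq hκ) (by positivity)
  refine ⟨fun h => ?_, fun θ hθ => ?_, ?_⟩
  · rw [div_lt_one (by positivity)]
    exact expo_lt hn hq h
  · obtain ⟨E, h1, h2⟩ := family_threshold (fun x : ℙ K (Fin (n + 1) → K) => x.mulHeight ^ (n + 1)) hν hs hθ U hU
      (J := ℕ) (fun m => ⋃ B : ℝ, exceptional a κ (-(m : ℝ)) B)
      (fun m ε hε => count K hn hq a ha κ (-(m : ℝ)) ε hκ hε)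
    exact ⟨E, h1, fun z hz hzE β hβ hβ0 => law_of (h2 z hz hzE β hβ hβ0)⟩
  · filter_upwards [ae_family_threshold (fun x : ℙ K (Fin (n + 1) → K) => x.mulHeight ^ (n + 1)) hν hs U hU
      (J := ℕ) (fun m => ⋃ B : ℝ, exceptional a κ (-(m : ℝ)) B)
      (fun m ε hε => count K hn hq a ha κ (-(m : ℝ)) ε hκ hε)] with z hz hz1 θ hθ β hβ hβ0
    exact law_of (hz hz1 θ hθ β hβ hβ0)

end Pool.Agent.Results.MP_8865d3_nt.PointsNearPowers
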