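import Pool.Agent.Results.MP_8865d3_nt.RandomIdeals
import Pool.Agent.TH390.Tw.M1
import Pool.Agent.V35.WT

/-!
# Vojta's inequality with multiplier ideals for all complete intersections and divisors of windows

`P = (G, F)` is a pair of tuples of forms of degrees `e i` (`i ≤ r`) and `k j` (`j ≤ q`) in `N + 1` variables with integer
coefficients, `|P|` the largest absolute value of a coefficient and `D = ∑ (N + e i choose N) + ∑ (N + k j choose N)` the
number of the coefficients: `X : G = 0` in `ℙ^N` with the divisors `F j = 0`. Let `v_m ≥ 1` be a sequence with exponent of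
convergence at most `τ` (`0` for `v_m = x ^ m`, `1 / a` for `v_m = (m + 1) ^ a`), `0 < η ≤ 2`, `η ≤ q + r`, and `ω < 1`. For
all `α ∈ ℝ ^ D` outside ONE set of Hausdorff dimension at most `(D - η / 2 + τ) / (1 - ω)`, which is a null set if
`ω < (η / 2 - τ) / D`, ALL finite sets `S` of primes, all `ε > 0` and all large `m`, for ALL pairs `P` with
`|P - α v_m| ≤ v_m ^ ω`, ALL rational points `x` of `X` off the divisors which are cut out by linear equations with
coefficients at most `|P|` (such as all points of height at most `|P|`) and ALL ideals `I` generated by monomials in the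
`F j`, with `I⁻` given by Howald's formula,
`h_K(x) + ∑_{v ∈ S ∪ ∞} (λ_I(x,v) - λ_{I⁻}(x,v)) + (N_S(D,x) - N¹_S(D,x)) ≤
  ε log |x| - (q + r - η) log |P| + ∑ log ‖F_j‖₁`.
-/

set_option autoImplicit false

open MeasureTheory MvPolynomial

namespace Pool.Agent.Results.MP_8865d3_nt.WindowsOfIdeals

open Pool.Agent.V35.WM Pool.Agent.V35.WT RandomIdeals
open Pool.Agent.TH390.Tw (Idx)

/-- the index set of the coefficients: the monomials of degree `e i` and of degree `k j` in `N + 1` variables -/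
abbrev Ix (N : ℕ) {r q : ℕ} (e : Fin r → ℕ) (k : Fin q → ℕ) : Type :=
  (Σ i : Fin r, Idx N (e i)) ⊕ (Σ j : Fin q, Idx N (k j))

/-- the integral coefficients of the pair -/
noncomputable def co {N r q : ℕ} (e : Fin r → ℕ) (k : Fin q → ℕ)
    (P : (Fin r → MvPolynomial (Fin (N + 1)) ℤ) × (Fin q → MvPolynomial (Fin (N + 1)) ℤ)) : Ix N e k → ℤ
  | .inl s => (P.1 s.1).coeff s.2.1
  | .inr s => (P.2 s.1).coeff s.2.1

/-- the vector of the coefficients of the pair `P` -/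
noncomputable def coeffs {N r q : ℕ} (e : Fin r → ℕ) (k : Fin q → ℕ)
    (P : (Fin r → MvPolynomial (Fin (N + 1)) ℤ) × (Fin q → MvPolynomial (Fin (N + 1)) ℤ)) : Ix N e k → ℝ :=
  re (co e k P)

lemma card_Ix (N : ℕ) {r q : ℕ} (e : Fin r → ℕ) (k : Fin q → ℕ) :
    (Fintype.card (Ix N e k) : ℝ) = ∑ i, ((N + e i).choose N : ℝ) + ∑ j, ((N + k j).choose N : ℝ) := by
  rw [Fintype.card_sum, Fintype.card_sigma, Fintype.card_sigma]
  push_cast
  congr 1
  · exact Finset.sum_congr rfl fun i _ => by rw [Pool.Agent.TH390.Tw.card_Idx]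
  · exact Finset.sum_congr rfl fun i _ => by rw [Pool.Agent.TH390.Tw.card_Idx]

lemma mem_pairs {N r q : ℕ} {e : Fin r → ℕ} {k : Fin q → ℕ}
    {P : (Fin r → MvPolynomial (Fin (N + 1)) ℤ) × (Fin q → MvPolynomial (Fin (N + 1)) ℤ)}
    (h1 : ∀ i, (P.1 i).IsHomogeneous (e i)) (h2 : ∀ j, (P.2 j).IsHomogeneous (k j)) {A : ℕ}
    (hA : ‖coeffs e k P‖ ≤ A) : P ∈ Pairs N e k A := by
  have hA' := (re_le_iff (co e k P) A).1 hA
  refine ⟨fun i => ⟨h1 i, fun m => ?_⟩, fun j => ⟨h2 j, fun m => ?_⟩⟩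
  · by_cases he : (P.1 i).coeff m = 0
    · rw [he, abs_zero]
      positivity
    · have hm := Pool.Agent.TH390.Tw.mem_finsuppAntidiag_of_hom (h1 i) he
      exact hA' (.inl ⟨i, ⟨m, hm⟩⟩)
  · by_cases he : (P.2 j).coeff m = 0
    · rw [he, abs_zero]
      positivity
    · have hm := Pool.Agent.TH390.Tw.mem_finsuppAntidiag_of_hom (h2 j) he
      exact hA' (.inr ⟨j, ⟨m, hm⟩⟩)

lemma pairs_card (N : ℕ) {r q : ℕ} (e : Fin r → ℕ) (k : Fin q → ℕ) (A : ℕ) :
    (Pairs N e k A).Finite ∧ ((Pairs N e k A).ncard : ℝ) ≤ (2 * (A : ℝ) + 1) ^ (Fintype.card (Ix N e k)) := by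
  classical
  set B : Finset (Ix N e k → ℤ) := Fintype.piFinset fun _ => Finset.Icc (-(A : ℤ)) A with hB
  have hmaps : ∀ P ∈ Pairs N e k A, co e k P ∈ (B : Set (Ix N e k → ℤ)) := by
    intro P hP
    rw [Finset.mem_coe, hB, Fintype.mem_piFinset]
    intro s
    rw [Finset.mem_Icc, ← abs_le]
    rcases s with s | s
    · exact (hP.1 s.1).2 _
    · exact (hP.2 s.1).2 _
  have hinj : Set.InjOn (co e k) (Pairs N e k A) := by
    intro P hP Q hQ hPQ
    refine Prod.ext ?_ ?_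
    · funext i
      ext m
      by_cases h1 : (P.1 i).coeff m = 0
      · by_cases h2 : (Q.1 i).coeff m = 0
        · rw [h1, h2]
        · have hm := Pool.Agent.TH390.Tw.mem_finsuppAntidiag_of_hom (hQ.1 i).1 h2
          exact congrFun hPQ (.inl ⟨i, ⟨m, hm⟩⟩)
      · have hm := Pool.Agent.TH390.Tw.mem_finsuppAntidiag_of_hom (hP.1 i).1 h1
        exact congrFun hPQ (.inl ⟨i, ⟨m, hm⟩⟩)
    · funext i
      ext m
      by_cases h1 : (P.2 i).coeff m = 0
      · by_cases h2 : (Q.2 i).coeff m = 0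
        · rw [h1, h2]
        · have hm := Pool.Agent.TH390.Tw.mem_finsuppAntidiag_of_hom (hQ.2 i).1 h2
          exact congrFun hPQ (.inr ⟨i, ⟨m, hm⟩⟩)
      · have hm := Pool.Agent.TH390.Tw.mem_finsuppAntidiag_of_hom (hP.2 i).1 h1
        exact congrFun hPQ (.inr ⟨i, ⟨m, hm⟩⟩)
  have hfin : (Pairs N e k A).Finite := Set.Finite.of_injOn hmaps hinj (Finset.finite_toSet B)
  refine ⟨hfin, ?_⟩
  have h1 : (Pairs N e k A).ncard ≤ B.card := by
    have := Set.ncard_le_ncard_of_injOn (co e k) hmaps hinj (Finset.finite_toSet B)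
    rwa [Set.ncard_coe_finset] at this
  have h2 : B.card = (2 * A + 1) ^ (Fintype.card (Ix N e k)) := by
    rw [hB, Fintype.card_piFinset, Finset.prod_const, Finset.card_univ, Int.card_Icc]
    congr 1
    omega
  rw [h2] at h1
  exact_mod_cast h1

lemma cutOut_mono {N : ℕ} {A B : ℕ} (h : A ≤ B) {x : Fin (N + 1) → ℤ} (hx : CutOut A x) : CutOut B x := by
  intro y hy
  refine hx y fun c hc => hy c fun j => (hc j).trans ?_
  exact_mod_cast h

/-- The inequality fails for the pair `P`, with `|P|` in the place of the bound `A`: for some rational point of `X` off the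
divisors, cut out by linear equations with coefficients at most `|P|`, and some ideal generated by monomials. -/
def FailsAt {N r q : ℕ} (e : Fin r → ℕ) (k : Fin q → ℕ) (S : Finset ℕ) (ε η : ℝ)
    (P : (Fin r → MvPolynomial (Fin (N + 1)) ℤ) × (Fin q → MvPolynomial (Fin (N + 1)) ℤ)) : Prop :=
  Fails e k S Set.univ (N + 1) ε η ⌊‖coeffs e k P‖⌋₊ P

/-- **Theorem.** Let `0 < η ≤ 2` and `η ≤ q + r`, let `D` be the number of the coefficients, `v ≥ 1` a sequence of exponent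
of convergence at most `τ ≥ 0` and `ω < 1`. There is a set `E ⊆ ℝ^D` of Hausdorff dimension at most
`(D - η / 2 + τ) / (1 - ω)`, of Lebesgue measure zero if `ω < (η / 2 - τ) / D`, such that for each `α` outside `E`, each
finite set `S` of primes, each `ε > 0` and all large `m`: for no pair `P = (G, F)` of tuples of forms of degrees `e i`,
`k j` with `‖P - v_m • α‖ ≤ v_m ^ ω` does the inequality fail (`FailsAt`). The number `|P| = ‖coeffs e k P‖` is an integer,
and the points of height at most `|P|` are cut out by equations with coefficients at most `|P|`. -/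
theorem result (N r q : ℕ) (e : Fin r → ℕ) (k : Fin q → ℕ) (hqr : 0 < q + r) (η : ℝ) (hη : 0 < η) (hη2 : η ≤ 2)
    (hηqr : η ≤ q + r) :
    (∀ (v : ℕ → ℝ) (τ ω : ℝ), (∀ m, 1 ≤ v m) → 0 ≤ τ → ExpLe v τ → ω < 1 →
      ∃ E : Set (Ix N e k → ℝ),
        dimH E ≤ ENNReal.ofReal
          ((∑ i, ((N + e i).choose N : ℝ) + ∑ j, ((N + k j).choose N : ℝ) - η / 2 + τ) / (1 - ω)) ∧
        (ω < (η / 2 - τ) / (∑ i, ((N + e i).choose N : ℝ) + ∑ j, ((N + k j).choose N : ℝ)) → volume E = 0) ∧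
        ∀ α : Ix N e k → ℝ, α ∉ E → ∀ S : Finset ℕ, (∀ p ∈ S, p.Prime) → ∀ ε : ℝ, 0 < ε →
          ∃ m₀ : ℕ, ∀ m : ℕ, m₀ ≤ m →
            ∀ P : (Fin r → MvPolynomial (Fin (N + 1)) ℤ) × (Fin q → MvPolynomial (Fin (N + 1)) ℤ),
              (∀ i, (P.1 i).IsHomogeneous (e i)) → (∀ j, (P.2 j).IsHomogeneous (k j)) →
                ‖coeffs e k P - v m • α‖ ≤ (v m) ^ ω → ¬ FailsAt e k S ε η P) ∧
    (∀ P : (Fin r → MvPolynomial (Fin (N + 1)) ℤ) × (Fin q → MvPolynomial (Fin (N + 1)) ℤ),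
      (⌊‖coeffs e k P‖⌋₊ : ℝ) = ‖coeffs e k P‖) ∧
    (∀ (A : ℕ) (x : Fin (N + 1) → ℤ), x ≠ 0 → height x ≤ A → CutOut A x) ∧
    (∀ x : ℝ, 1 < x → ExpLe (fun m : ℕ => x ^ m) 0) ∧
    (∀ a : ℝ, 0 < a → ExpLe (fun m : ℕ => ((m : ℝ) + 1) ^ a) (1 / a)) := by
  have hfloor : ∀ P : (Fin r → MvPolynomial (Fin (N + 1)) ℤ) × (Fin q → MvPolynomial (Fin (N + 1)) ℤ),
      (⌊‖coeffs e k P‖⌋₊ : ℝ) = ‖coeffs e k P‖ := fun P =>
    le_antisymm (Nat.floor_le (norm_nonneg _)) (re_floor _ _ (norm_nonneg _) le_rfl)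
  refine ⟨?_, hfloor, (RandomIdeals.result N r q e k ∅ (by simp) 1 1 one_pos one_pos).1,
    fun x hx => expLe_geom x hx, fun a ha => expLe_pow a ha⟩
  intro v τ ω hv hτ hE hω
  have hcard := card_Ix N e k
  have hne : Nonempty (Ix N e k) := by
    by_cases hq : 0 < q
    · have h1 : Nonempty (Idx N (k ⟨0, hq⟩)) := by
        rw [← Fintype.card_pos_iff, Pool.Agent.TH390.Tw.card_Idx]
        exact Nat.choose_pos (by omega)
      obtain ⟨m⟩ := h1
      exact ⟨.inr ⟨⟨0, hq⟩, m⟩⟩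
    · have hr : 0 < r := by omega
      have h1 : Nonempty (Idx N (e ⟨0, hr⟩)) := by
        rw [← Fintype.card_pos_iff, Pool.Agent.TH390.Tw.card_Idx]
        exact Nat.choose_pos (by omega)
      obtain ⟨m⟩ := h1
      exact ⟨.inl ⟨⟨0, hr⟩, m⟩⟩
  obtain ⟨D, hDdef⟩ : ∃ D, D = ∑ i, ((N + e i).choose N : ℝ) + ∑ j, ((N + k j).choose N : ℝ) := ⟨_, rfl⟩
  rw [← hDdef] at hcard ⊢
  have hD1 : (1 : ℝ) ≤ D := by
    rw [← hcard]
    have : 0 < Fintype.card (Ix N e k) := Fintype.card_pos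
    exact_mod_cast this
  have hs : 0 ≤ D - η / 2 := by linarith
  -- one set `S` and one `ε`
  have hone : ∀ (S : {S : Finset ℕ // ∀ p ∈ S, p.Prime}) (i : ℕ),
      Thin {P : (Fin r → MvPolynomial (Fin (N + 1)) ℤ) × (Fin q → MvPolynomial (Fin (N + 1)) ℤ) |
        ((∀ i, (P.1 i).IsHomogeneous (e i)) ∧ ∀ j, (P.2 j).IsHomogeneous (k j)) ∧
          FailsAt e k S.1 (1 / ((i : ℝ) + 1)) η P}
        (fun P => (re (co e k P) : Ix N e k → ℝ)) (D - η / 2) := by
    intro S i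
    have hε : (0 : ℝ) < 1 / ((i : ℝ) + 1) := by positivity
    obtain ⟨C, hC⟩ := (RandomIdeals.result N r q e k S.1 S.2 _ η hε hη).2.1
    refine thin_of (C := |C| * 3 ^ D) hs
      (fun A => {P ∈ Pairs N e k A | Fails e k S.1 Set.univ (N + 1) (1 / ((i : ℝ) + 1)) η A P}) ?_ ?_
    · intro A hA
      have hA' : (1 : ℝ) ≤ A := by exact_mod_cast hA
      have hA0 : (0 : ℝ) < A := by linarith
      obtain ⟨hfin, hc⟩ := pairs_card N e k A
      refine ⟨hfin.subset (Set.sep_subset _ _), (hC A hA).trans ?_⟩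
      have h1 : ((Pairs N e k A).ncard : ℝ) ≤ 3 ^ D * (A : ℝ) ^ D := by
        refine hc.trans ?_
        rw [← Real.rpow_natCast, hcard, ← Real.mul_rpow (by norm_num) hA0.le]
        exact Real.rpow_le_rpow (by positivity) (by linarith) (by linarith)
      calc C * (A : ℝ) ^ (-(η / 2)) * ((Pairs N e k A).ncard : ℝ)
          ≤ |C| * (A : ℝ) ^ (-(η / 2)) * (3 ^ D * (A : ℝ) ^ D) := by
            apply mul_le_mul _ h1 (Nat.cast_nonneg _) (by positivity)
            exact mul_le_mul_of_nonneg_right (le_abs_self C) (by positivity)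
        _ = |C| * 3 ^ D * (A : ℝ) ^ (D - η / 2) := by
            rw [sub_eq_add_neg, Real.rpow_add hA0]
            ring
    · rintro A hA P ⟨⟨hG, hF⟩, hP⟩ hn
      have hle : ⌊‖coeffs e k P‖⌋₊ ≤ A := Nat.floor_le_of_le hn
      refine ⟨mem_pairs hG hF hn, ?_⟩
      obtain ⟨x, hxV, hx1, hx2, hx3, hx4, T, hT, hlt⟩ := hP
      refine ⟨x, hxV, hx1, cutOut_mono hle hx2, hx3, hx4, T, hT, lt_of_le_of_lt ?_ hlt⟩
      have hlog : Real.log (⌊‖coeffs e k P‖⌋₊ : ℝ) ≤ Real.log A := by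
        rcases Nat.eq_zero_or_pos ⌊‖coeffs e k P‖⌋₊ with h0 | h0
        · rw [h0]
          simp only [Nat.cast_zero, Real.log_zero]
          exact Real.log_nonneg (by exact_mod_cast hA)
        · exact Real.log_le_log (by exact_mod_cast h0) (by exact_mod_cast hle)
      have hqr' : 0 ≤ (q : ℝ) + r - η := by linarith
      nlinarith [mul_le_mul_of_nonneg_left hlog hqr']
  choose E h1 h2 h3 using fun (S : {S : Finset ℕ // ∀ p ∈ S, p.Prime}) (i : ℕ) =>
    windows hs (hone S i) hv hτ hE hω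
  refine ⟨⋃ S, ⋃ i, E S i, ?_, ?_, ?_⟩
  · rw [dimH_iUnion]
    refine iSup_le fun S => ?_
    rw [dimH_iUnion]
    exact iSup_le fun i => h1 S i
  · intro hω2
    rw [measure_iUnion_null_iff]
    intro S
    rw [measure_iUnion_null_iff]
    intro i
    apply h2 S i
    have hD0 : (0 : ℝ) < D := by linarith
    have h4 : 1 - (D - η / 2 + τ) / D = (η / 2 - τ) / D := by
      field_simp
      ring
    rw [hcard, h4]
    exact hω2
  · intro α hα S hS ε hε
    obtain ⟨i, hi⟩ := exists_nat_one_div_lt hε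
    have hα' : α ∉ E ⟨S, hS⟩ i := fun h => hα (Set.mem_iUnion.2 ⟨_, Set.mem_iUnion.2 ⟨_, h⟩⟩)
    obtain ⟨m₀, hm⟩ := h3 ⟨S, hS⟩ i α hα'
    refine ⟨m₀, fun m hm1 P hG hF hPw hP => ?_⟩
    refine hm m hm1 P hPw ⟨⟨hG, hF⟩, ?_⟩
    obtain ⟨x, hxV, hx1, hx2, hx3, hx4, T, hT, hlt⟩ := hP
    refine ⟨x, hxV, hx1, hx2, hx3, hx4, T, hT, lt_of_le_of_lt ?_ hlt⟩
    have hlx : 0 ≤ Real.log (height x : ℝ) := Real.log_natCast_nonneg _
    have := mul_le_mul_of_nonneg_right hi.le hlx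
    linarith

end Pool.Agent.Results.MP_8865d3_nt.WindowsOfIdeals
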